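import Mathlib
import Pool.Agent.Helper81.Hopf.RelFree

/-!
# MP_b0f484_al: Hopf property of relatively free groups in soluble varieties

`RelFree L n` is the relatively free group of rank `n` in the variety defined by the set of laws
`L`, written exactly as in the frozen statement.  If its second derived subgroup is residually
nilpotent (for instance if the variety consists of soluble groups of derived length at most three,
or of nilpotent-by-metabelian groups), then `RelFree L n` has the Hopf property.
-/

set_option autoImplicit false

namespace Pool.Agent.Results.MP_b0f484_al.HopfSecondDerived

/-- The relatively free group of rank `n` in the variety of the groups satisfying all the laws in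
`L`: the quotient of the free group of rank `n` by the verbal subgroup of `L`. -/
abbrev RelFree (L : Set (FreeGroup ℕ)) (n : ℕ) : Type :=
  FreeGroup (Fin n) ⧸ Subgroup.normalClosure
    {x : FreeGroup (Fin n) | ∃ w ∈ L, ∃ φ : FreeGroup ℕ →* FreeGroup (Fin n), φ w = x}

/-- If the second derived subgroup of a relatively free group of finite rank is residually
nilpotent (its lower central series has trivial intersection), the group has the Hopf property. -/
theorem result (L : Set (FreeGroup ℕ)) (n : ℕ)
    (hres : ⨅ k, (derivedSeries (RelFree L n) 2).lowerCentralSeries k = ⊥)
    (f : RelFree L n →* RelFree L n) (hf : Function.Surjective f) : Function.Injective f :=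
  Pool.Agent.Helper81.Hopf.hopf_relfree L n hres f hf

end Pool.Agent.Results.MP_b0f484_al.HopfSecondDerived
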