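import Mathlib
import Pool.Agent.Helper54.Hopf.Explicit

/-!
# MP_b0f484_al: a soluble variety whose relatively free groups are not Hopfian

There is one group law `w` such that every group satisfying `w` is soluble of derived length at
most `5` and, for every `n ≥ 8`, the relatively free group of rank `n` in the variety defined by
`w` has a surjective endomorphism that is not injective.
-/

set_option autoImplicit false

universe u

namespace Pool.Agent.Results.MP_b0f484_al.OneLawNonHopfian

/-- The relatively free group of rank `n` in the variety of all groups satisfying the law `w`: the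
quotient of the free group on `Fin n` by the normal closure of all values of `w` in it (its verbal
subgroup for `w`). -/
abbrev RelFree (w : FreeGroup ℕ) (n : ℕ) : Type :=
  FreeGroup (Fin n) ⧸ Subgroup.normalClosure
    {x : FreeGroup (Fin n) | ∃ φ : FreeGroup ℕ →* FreeGroup (Fin n), φ w = x}

/-- There is a law `w` such that every group in which all values of `w` are trivial is soluble of
derived length at most `5`, and such that for every `n ≥ 8` the relatively free group of rank `n`
of the variety defined by `w` is not Hopfian. -/
theorem result :
    ∃ w : FreeGroup ℕ,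
      (∀ (G : Type u) [Group G],
        (∀ φ : FreeGroup ℕ →* G, φ w = 1) → derivedSeries G 5 = ⊥) ∧
      ∀ n : ℕ, 8 ≤ n → ∃ f : RelFree w n →* RelFree w n,
        Function.Surjective f ∧ ¬ Function.Injective f := by
  refine ⟨Pool.Agent.Helper54.Hopf.lw,
    fun G _ hG => ((Pool.Agent.Helper54.Hopf.lw_iff G).1 hG).1, fun n hn => ?_⟩
  have h := Pool.Agent.Helper54.Hopf.explicit n hn
  have e : {x : FreeGroup (Fin n) | ∃ w ∈ ({Pool.Agent.Helper54.Hopf.lw} : Set (FreeGroup ℕ)),
      ∃ φ : FreeGroup ℕ →* FreeGroup (Fin n), φ w = x} =
      {x : FreeGroup (Fin n) | ∃ φ : FreeGroup ℕ →* FreeGroup (Fin n),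
        φ Pool.Agent.Helper54.Hopf.lw = x} := by
    ext x
    simp
  unfold Pool.Agent.Helper54.Hopf.verb at h
  unfold RelFree
  rw [e] at h
  exact h

end Pool.Agent.Results.MP_b0f484_al.OneLawNonHopfian
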